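import Pool.Agent.helper52.BN.Ode

set_option autoImplicit false

/-!
# MP_94a57f_an: two-point boundary value problems (module O1b)
-/

open MeasureTheory Filter Topology Set Metric
open scoped ContDiff Gradient RealInnerProductSpace ENNReal

noncomputable section
namespace Pool.Agent.helper13.BN

/-- two solutions of the homogeneous equation with the same Cauchy data at some point agree -/
theorem isSol_ne_zero {q Y : ℝ → ℝ} (hq : Continuous q) (hY : IsSol1 q Y) {L : ℝ} (hL : 0 ≤ L)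
    (h : Y L = 0) : deriv Y L ≠ 0 := by
  intro h'
  obtain ⟨h0, h1, h2, h3⟩ := hY
  -- the reflected solution
  obtain ⟨M, hM⟩ := isCompact_Icc.exists_bound_of_continuousOn (s := Icc 0 L) hq.continuousOn
  simp only [Real.norm_eq_abs] at hM
  have hd : deriv (fun t => Y (L - t)) = fun t => - deriv Y (L - t) := by
    funext t
    have e : HasDerivAt (fun t : ℝ => L - t) (-1) t := by
      simpa using (hasDerivAt_id t).const_sub L
    have := (h2 (L - t)).hasDerivAt.comp t e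
    have h4 := this.deriv
    simp only [Function.comp_def, mul_neg, mul_one] at h4
    exact h4
  obtain ⟨C, hC, hb⟩ := exists_ode_bound M L
  have hdiff : Differentiable ℝ (fun t => Y (L - t)) := by
    intro t
    exact (h2 (L - t)).comp t ((differentiableAt_const L).sub differentiableAt_id)
  have := hb (fun t => q (L - t)) (fun _ => 0) (fun t => Y (L - t)) 0 0 0 (by fun_prop)
    continuous_const
    (fun t ht => hM _ ⟨by linarith [ht.2], by linarith [ht.1]⟩) (by simp)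
    (by simp [h]) (by rw [hd]; simp [h']) hdiff
    (fun t => by
      rw [hd]
      have e : HasDerivAt (fun t : ℝ => L - t) (-1) t := by
        simpa using (hasDerivAt_id t).const_sub L
      have h5 := ((h3 (L - t)).comp t e).neg
      refine h5.congr_deriv ?_
      ring) L ⟨hL, le_rfl⟩
  rw [hd] at this
  simp only [sub_self, h1, abs_neg, abs_one, abs_zero, add_zero, mul_zero] at this
  linarith [this.2]

/-- the particular solution with zero Cauchy data -/
theorem exists_particular (ν lam : ℝ) {h : ℝ → ℝ} (hh : ContDiff ℝ ∞ h) :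
    ∃ P : ℝ → ℝ, ContDiff ℝ ∞ P ∧ P 0 = 0 ∧ deriv P 0 = 0 ∧ Differentiable ℝ P ∧
      (∀ t, HasDerivAt (deriv P) (qf ν lam t * P t + -(Real.exp (-2 * t) * h t)) t) := by
  have hg : ContDiff ℝ ∞ fun t => -(Real.exp (-2 * t) * h t) := by fun_prop
  obtain ⟨P, h0, h1, h2, h3⟩ := ode_exists (qf_cont ν lam) hg.continuous 0 0
  exact ⟨P, contDiff_of_ode (qf_contDiff ν lam) hg h2 h3, h0, h1, h2, h3⟩

theorem abs_exp_mul_le {h B t : ℝ} (ht : 0 ≤ t) (hB : |h| ≤ B) :
    |-(Real.exp (-2 * t) * h)| ≤ B := by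
  rw [abs_neg, abs_mul, abs_of_pos (Real.exp_pos _)]
  have h1 : Real.exp (-2 * t) ≤ 1 := Real.exp_le_one_iff.2 (by linarith)
  calc Real.exp (-2 * t) * |h| ≤ 1 * |h| := mul_le_mul_of_nonneg_right h1 (abs_nonneg _)
    _ ≤ B := by rw [one_mul]; exact hB

/-- two-point problem `-y'' + ν² y - λ e^{-2t} y = e^{-2t} h`, `y(0)=y(L)=0`, nonresonant, with
bounds that are locally uniform in `(λ, L)` -/
theorem dirichlet_solve (ν : ℝ) {lam₀ L₀ : ℝ} (hL : 0 < L₀) (hne : yf ν lam₀ L₀ ≠ 0) :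
    ∃ (δ C : ℝ), 0 < δ ∧ 0 < C ∧ δ < L₀ ∧ ∀ lam L : ℝ, |lam - lam₀| < δ → |L - L₀| < δ →
      ∀ h : ℝ → ℝ, ContDiff ℝ ∞ h → ∀ B : ℝ, (∀ t ∈ Icc 0 (L₀ + 1), |h t| ≤ B) →
      ∃ y : ℝ → ℝ, ContDiff ℝ ∞ y ∧ y 0 = 0 ∧ y L = 0 ∧
        (∀ t, deriv (deriv y) t = qf ν lam t * y t - Real.exp (-2 * t) * h t) ∧
        ∀ t ∈ Icc 0 L, |y t| ≤ C * B ∧ |deriv y t| ≤ C * B := by
  set m : ℝ := |yf ν lam₀ L₀| / 2 with hm
  have hm0 : 0 < m := by positivity
  -- a neighbourhood on which `|yf| > m`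
  have hopen : {z : ℝ × ℝ | m < |yf ν z.1 z.2|} ∈ 𝓝 (lam₀, L₀) := by
    apply (isOpen_lt continuous_const (yf_continuous ν).1.abs).mem_nhds
    show m < |yf ν lam₀ L₀|
    rw [hm]
    have : 0 < |yf ν lam₀ L₀| := abs_pos.2 hne
    linarith
  obtain ⟨ε, hε, hball⟩ := Metric.mem_nhds_iff.1 hopen
  obtain ⟨C₁, hC₁, hb⟩ := exists_ode_bound (ν ^ 2 + (|lam₀| + 1) * Real.exp (2 * 0)) (L₀ + 1)
  set δ : ℝ := min (min ε 1) (L₀ / 2) with hδ
  have hδ0 : 0 < δ := by positivity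
  have hδε : δ ≤ ε := (min_le_left _ _).trans (min_le_left _ _)
  have hδ1 : δ ≤ 1 := (min_le_left _ _).trans (min_le_right _ _)
  have hδL : δ ≤ L₀ / 2 := min_le_right _ _
  refine ⟨δ, C₁ + C₁ / m * C₁, hδ0, by positivity, by linarith, ?_⟩
  intro lam L hlam hLL h hh B hB
  have hL0 : 0 < L := by
    have := (abs_lt.1 hLL).1
    linarith
  have hL1 : L ≤ L₀ + 1 := by
    have := (abs_lt.1 hLL).2
    linarith
  have hB0 : 0 ≤ B := (abs_nonneg _).trans (hB 0 ⟨le_rfl, by linarith⟩)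
  have hyL : m < |yf ν lam L| := by
    have : ((lam, L) : ℝ × ℝ) ∈ ball ((lam₀, L₀) : ℝ × ℝ) ε := by
      rw [mem_ball, Prod.dist_eq, Real.dist_eq, Real.dist_eq]
      exact max_lt (lt_of_lt_of_le hlam hδε) (lt_of_lt_of_le hLL hδε)
    exact hball this
  have hyL0 : yf ν lam L ≠ 0 := by
    rw [← abs_pos]
    linarith
  have hlam' : |lam| ≤ |lam₀| + 1 := by
    have := abs_add_le (lam - lam₀) lam₀
    rw [sub_add_cancel] at this
    linarith
  obtain ⟨P, hPc, hP0, hP1, hPd, hP2⟩ := exists_particular ν lam hh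
  obtain ⟨y0, y1, y2, y3⟩ := yf_spec ν lam
  have hq : ∀ t ∈ Icc 0 (L₀ + 1), |qf ν lam t| ≤ ν ^ 2 + (|lam₀| + 1) * Real.exp (2 * 0) :=
    fun t ht => abs_qf_le ν hlam' (by linarith [ht.1])
  have bP := hb (qf ν lam) (fun t => -(Real.exp (-2 * t) * h t)) P 0 0 B (qf_cont ν lam)
    (by have := hh.continuous; fun_prop) hq (fun t ht => abs_exp_mul_le ht.1 (hB t ht))
    hP0 hP1 hPd hP2
  have by' := hb (qf ν lam) (fun _ => 0) (yf ν lam) 0 1 0 (qf_cont ν lam)
    continuous_const hq (by simp) y0 y1 y2 (fun t => by simpa using y3 t)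
  simp only [abs_zero, zero_add, abs_one, add_zero, mul_one] at bP by'
  set c : ℝ := P L / yf ν lam L with hc
  have hcb : |c| ≤ C₁ * B / m := by
    rw [hc, abs_div]
    have h1 := (bP L ⟨hL0.le, hL1⟩).1
    rw [div_le_div_iff₀ (by linarith) hm0]
    have h2 : 0 ≤ C₁ * B := by positivity
    calc |P L| * m ≤ (C₁ * B) * m := mul_le_mul_of_nonneg_right h1 hm0.le
      _ ≤ (C₁ * B) * |yf ν lam L| := mul_le_mul_of_nonneg_left hyL.le h2
  have hyc := yf_contDiff ν lam
  have hd : deriv (fun t => P t - c * yf ν lam t) = fun t => deriv P t - c * deriv (yf ν lam) t := by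
    funext t
    exact ((hPd t).hasDerivAt.sub ((y2 t).hasDerivAt.const_mul c)).deriv
  refine ⟨fun t => P t - c * yf ν lam t, hPc.sub (contDiff_const.mul hyc), by simp [hP0, y0], ?_,
    ?_, ?_⟩
  · simp only [hc]
    rw [div_mul_cancel₀ _ hyL0, sub_self]
  · intro t
    rw [hd]
    have := ((hP2 t).sub ((y3 t).const_mul c)).deriv
    rw [show deriv (fun t => deriv P t - c * deriv (yf ν lam) t) t
      = deriv (deriv P - fun t => c * deriv (yf ν lam) t) t from rfl, this]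
    ring
  · intro t ht
    have ht' : t ∈ Icc 0 (L₀ + 1) := ⟨ht.1, ht.2.trans hL1⟩
    rw [hd]
    have e1 := bP t ht'
    have e2 := by' t ht'
    have hCB : 0 ≤ C₁ * B := by positivity
    have hCm : 0 ≤ C₁ * B / m := by positivity
    constructor
    · calc |P t - c * yf ν lam t| ≤ |P t| + |c * yf ν lam t| := abs_sub _ _
        _ = |P t| + |c| * |yf ν lam t| := by rw [abs_mul]
        _ ≤ C₁ * B + C₁ * B / m * C₁ :=
          add_le_add e1.1 (mul_le_mul hcb e2.1 (abs_nonneg _) hCm)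
        _ = (C₁ + C₁ / m * C₁) * B := by ring
    · calc |deriv P t - c * deriv (yf ν lam) t|
          ≤ |deriv P t| + |c * deriv (yf ν lam) t| := abs_sub _ _
        _ = |deriv P t| + |c| * |deriv (yf ν lam) t| := by rw [abs_mul]
        _ ≤ C₁ * B + C₁ * B / m * C₁ :=
          add_le_add e1.2 (mul_le_mul hcb e2.2 (abs_nonneg _) hCm)
        _ = (C₁ + C₁ / m * C₁) * B := by ring

/-- resonant case: `yf ν lam L = 0` and `∫ e^{-2t} h yf = 0` -/
theorem dirichlet_solve_res (ν R M : ℝ) : ∃ C : ℝ, 0 < C ∧ ∀ lam L : ℝ, 0 < L → L ≤ R →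
      |lam| ≤ M → yf ν lam L = 0 →
      ∀ h : ℝ → ℝ, ContDiff ℝ ∞ h → ∀ B : ℝ, (∀ t ∈ Icc 0 R, |h t| ≤ B) →
      (∫ t in (0 : ℝ)..L, Real.exp (-2 * t) * (h t * yf ν lam t) = 0) →
      ∃ y : ℝ → ℝ, ContDiff ℝ ∞ y ∧ y 0 = 0 ∧ y L = 0 ∧
        (∀ t, deriv (deriv y) t = qf ν lam t * y t - Real.exp (-2 * t) * h t) ∧
        ∀ t ∈ Icc 0 L, |y t| ≤ C * B ∧ |deriv y t| ≤ C * B := by
  obtain ⟨C₁, hC₁, hb⟩ := exists_ode_bound (ν ^ 2 + M * Real.exp (2 * 0)) R
  refine ⟨C₁, hC₁, ?_⟩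
  intro lam L hL hLR hlam hyL h hh B hB hint
  obtain ⟨P, hPc, hP0, hP1, hPd, hP2⟩ := exists_particular ν lam hh
  have hy := yf_spec ν lam
  obtain ⟨y0, y1, y2, y3⟩ := hy
  have hq : ∀ t ∈ Icc 0 R, |qf ν lam t| ≤ ν ^ 2 + M * Real.exp (2 * 0) :=
    fun t ht => abs_qf_le ν hlam (by linarith [ht.1])
  have bP := hb (qf ν lam) (fun t => -(Real.exp (-2 * t) * h t)) P 0 0 B (qf_cont ν lam)
    (by have := hh.continuous; fun_prop) hq (fun t ht => abs_exp_mul_le ht.1 (hB t ht))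
    hP0 hP1 hPd hP2
  simp only [abs_zero, zero_add] at bP
  -- the Wronskian
  have hW : ∀ t ∈ uIcc 0 L, HasDerivAt
      (fun t => deriv P t * yf ν lam t - P t * deriv (yf ν lam) t)
      (-(Real.exp (-2 * t) * (h t * yf ν lam t))) t := by
    intro t _
    have h1 := (hP2 t).mul (y2 t).hasDerivAt
    have h2 := (hPd t).hasDerivAt.mul (y3 t)
    have h3 := h1.sub h2
    refine h3.congr_deriv ?_
    ring
  have hWc : Continuous fun t => -(Real.exp (-2 * t) * (h t * yf ν lam t)) := by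
    have c1 := (yf_contDiff ν lam).continuous
    have c2 := hh.continuous
    fun_prop
  have hI := intervalIntegral.integral_eq_sub_of_hasDerivAt hW (hWc.intervalIntegrable 0 L)
  rw [intervalIntegral.integral_neg, hint, hyL, hP0, hP1] at hI
  have hPL : P L * deriv (yf ν lam) L = 0 := by linarith
  have hPL' : P L = 0 := by
    rcases mul_eq_zero.1 hPL with h | h
    · exact h
    · exact absurd h (isSol_ne_zero (qf_cont ν lam) (yf_spec ν lam) hL.le hyL)
  refine ⟨P, hPc, hP0, hPL', fun t => ?_, fun t ht => bP t ⟨ht.1, ht.2.trans hLR⟩⟩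
  rw [(hP2 t).deriv]
  ring

end Pool.Agent.helper13.BN
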