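import Pool.Agent.helper13.BN.Defs

set_option autoImplicit false

/-!
# MP_94a57f_an: linear second order equations (module O1)
-/

open MeasureTheory Filter Topology Set Metric
open scoped ContDiff Gradient RealInnerProductSpace ENNReal

noncomputable section
namespace Pool.Agent.helper13.BN

/-! ### auxiliary: the companion system -/

/-- the vector field of the companion system -/
def cvf (q h : ℝ → ℝ) (t : ℝ) (x : ℝ × ℝ) : ℝ × ℝ := (x.2, q t * x.1 + h t)

/-- the clamp -/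
def clampR (R : ℝ) (x : ℝ × ℝ) : ℝ × ℝ := (max (-R) (min x.1 R), max (-R) (min x.2 R))

theorem abs_clamp_sub (R a b : ℝ) : |max (-R) (min a R) - max (-R) (min b R)| ≤ |a - b| := by
  have h1 := abs_max_sub_max_le_max (-R) (min a R) (-R) (min b R)
  have h2 := abs_min_sub_min_le_max a R b R
  simp only [sub_self, abs_zero] at h1 h2
  have h3 : max 0 |min a R - min b R| = |min a R - min b R| := max_eq_right (abs_nonneg _)
  have h4 : max |a - b| 0 = |a - b| := max_eq_left (abs_nonneg _)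
  rw [h3] at h1
  rw [h4] at h2
  exact h1.trans h2

theorem abs_clamp_le_abs {R : ℝ} (hR : 0 ≤ R) (a : ℝ) : |max (-R) (min a R)| ≤ |a| := by
  have := abs_clamp_sub R a 0
  simpa [min_eq_left hR, max_eq_right (neg_nonpos.2 hR)] using this

theorem abs_clamp_le {R : ℝ} (hR : 0 ≤ R) (a : ℝ) : |max (-R) (min a R)| ≤ R := by
  rw [abs_le]
  refine ⟨le_max_left _ _, max_le (by linarith) (min_le_right _ _)⟩

theorem clamp_eq {R a : ℝ} (h : |a| ≤ R) : max (-R) (min a R) = a := by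
  rw [abs_le] at h
  rw [min_eq_left h.2, max_eq_right h.1]

theorem norm_cvf_le {q h : ℝ → ℝ} {t M δ : ℝ} (hM : |q t| ≤ M) (hδ : |h t| ≤ δ) (x : ℝ × ℝ) :
    ‖cvf q h t x‖ ≤ (1 + M) * ‖x‖ + δ := by
  have hM0 : 0 ≤ M := (abs_nonneg _).trans hM
  have hδ0 : 0 ≤ δ := (abs_nonneg _).trans hδ
  have h1 : |x.1| ≤ ‖x‖ := by
    have := norm_fst_le x
    rwa [Real.norm_eq_abs] at this
  have h2 : |x.2| ≤ ‖x‖ := by
    have := norm_snd_le x
    rwa [Real.norm_eq_abs] at this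
  have hx := norm_nonneg x
  rw [cvf, Prod.norm_def]
  simp only [Real.norm_eq_abs]
  refine max_le ?_ ?_
  · nlinarith
  · calc |q t * x.1 + h t| ≤ |q t| * |x.1| + |h t| := by
          refine (abs_add_le _ _).trans ?_
          rw [abs_mul]
      _ ≤ M * ‖x‖ + δ := by
          have := mul_le_mul hM h1 (abs_nonneg _) hM0
          linarith
      _ ≤ _ := by nlinarith

theorem norm_clampR_le_norm {R : ℝ} (hR : 0 ≤ R) (x : ℝ × ℝ) : ‖clampR R x‖ ≤ ‖x‖ := by
  rw [clampR, Prod.norm_def, Prod.norm_def]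
  simp only [Real.norm_eq_abs]
  exact max_le_max (abs_clamp_le_abs hR _) (abs_clamp_le_abs hR _)

theorem norm_clampR_le {R : ℝ} (hR : 0 ≤ R) (x : ℝ × ℝ) : ‖clampR R x‖ ≤ R := by
  rw [clampR, Prod.norm_def]
  simp only [Real.norm_eq_abs]
  exact max_le (abs_clamp_le hR _) (abs_clamp_le hR _)

theorem clampR_eq {R : ℝ} {x : ℝ × ℝ} (h : ‖x‖ ≤ R) : clampR R x = x := by
  have h1 : |x.1| ≤ R := by
    have := (norm_fst_le x).trans h
    rwa [Real.norm_eq_abs] at this
  have h2 : |x.2| ≤ R := by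
    have := (norm_snd_le x).trans h
    rwa [Real.norm_eq_abs] at this
  rw [clampR, clamp_eq h1, clamp_eq h2]

theorem norm_clampR_sub (R : ℝ) (x y : ℝ × ℝ) : ‖clampR R x - clampR R y‖ ≤ ‖x - y‖ := by
  rw [Prod.norm_def, Prod.norm_def]
  simp only [clampR, Prod.fst_sub, Prod.snd_sub, Real.norm_eq_abs]
  exact max_le_max (abs_clamp_sub _ _ _) (abs_clamp_sub _ _ _)

theorem cvf_lip {q h : ℝ → ℝ} {t M : ℝ} (hM : |q t| ≤ M) (x y : ℝ × ℝ) :
    ‖cvf q h t x - cvf q h t y‖ ≤ (1 + M) * ‖x - y‖ := by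
  have h1 : cvf q h t x - cvf q h t y = cvf q (fun _ => 0) t (x - y) := by
    simp only [cvf, Prod.mk_sub_mk, Prod.fst_sub, Prod.snd_sub, add_zero]
    congr 1
    ring
  rw [h1]
  have := norm_cvf_le (h := fun _ => 0) (δ := 0) hM (by simp) (x - y)
  simpa using this

/-- two-sided Gronwall -/
theorem gronwall_two_sided {f f' : ℝ → ℝ × ℝ} {δ K ε T : ℝ} (hT : 0 ≤ T)
    (hf : ∀ t ∈ Icc (-T) T, HasDerivWithinAt f (f' t) (Icc (-T) T) t)
    (h0 : ‖f 0‖ ≤ δ) (bound : ∀ t ∈ Icc (-T) T, ‖f' t‖ ≤ K * ‖f t‖ + ε) :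
    ∀ t ∈ Icc (-T) T, ‖f t‖ ≤ gronwallBound δ K ε |t| := by
  have hfc : ContinuousOn f (Icc (-T) T) := fun t ht => (hf t ht).continuousWithinAt
  have key1 : ∀ t ∈ Icc 0 T, ‖f t‖ ≤ gronwallBound δ K ε (t - 0) := by
    apply norm_le_gronwallBound_of_norm_deriv_right_le (f' := f')
      (hfc.mono (Icc_subset_Icc (by linarith) le_rfl))
    · intro x hx
      have hx' : x ∈ Icc (-T) T := ⟨by linarith [hx.1], hx.2.le⟩
      have := hf x hx'
      refine this.mono_of_mem_nhdsWithin ?_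
      have h1 : Icc x T ∈ 𝓝[≥] x := Icc_mem_nhdsGE hx.2
      exact mem_of_superset h1 (Icc_subset_Icc (by linarith [hx.1]) le_rfl)
    · exact h0
    · intro x hx
      exact bound x ⟨by linarith [hx.1], hx.2.le⟩
  have key2 : ∀ t ∈ Icc 0 T, ‖f (-t)‖ ≤ gronwallBound δ K ε (t - 0) := by
    apply norm_le_gronwallBound_of_norm_deriv_right_le (f := fun t => f (-t))
      (f' := fun t => - f' (-t))
    · apply hfc.comp continuous_neg.continuousOn
      intro x hx
      exact ⟨by simpa using hx.2, by have := hx.1; show -x ≤ T; linarith⟩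
    · intro x hx
      have hx' : -x ∈ Icc (-T) T := ⟨by linarith [hx.2], by linarith [hx.1]⟩
      have h2 : HasDerivWithinAt (fun t : ℝ => -t) (-1) (Icc x T) x :=
        (hasDerivAt_neg x).hasDerivWithinAt
      have h3 : MapsTo (fun t : ℝ => -t) (Icc x T) (Icc (-T) T) := by
        intro y hy
        exact ⟨by simpa using hy.2, by have := hy.1; have := hx.1; show -y ≤ T; linarith⟩
      have h4 := (hf (-x) hx').scomp x h2 h3
      simp only [neg_smul, one_smul] at h4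
      exact HasDerivWithinAt.mono_of_mem_nhdsWithin h4 (Icc_mem_nhdsGE hx.2)
    · simpa using h0
    · intro x hx
      have hx' : -x ∈ Icc (-T) T := ⟨by linarith [hx.2], by linarith [hx.1]⟩
      simpa using bound (-x) hx'
  intro t ht
  rcases le_total 0 t with h | h
  · have := key1 t ⟨h, ht.2⟩
    rw [sub_zero] at this
    rwa [abs_of_nonneg h]
  · have := key2 (-t) ⟨by linarith, by linarith [ht.1]⟩
    rw [neg_neg, sub_zero] at this
    rwa [abs_of_nonpos h]

theorem exists_local {q h : ℝ → ℝ} (hq : Continuous q) (hh : Continuous h) (x₀ : ℝ × ℝ) {T : ℝ}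
    (hT : 0 ≤ T) : ∃ α : ℝ → ℝ × ℝ, α 0 = x₀ ∧
      ∀ t ∈ Icc (-T) T, HasDerivWithinAt α (cvf q h t (α t)) (Icc (-T) T) t := by
  obtain ⟨M, hM⟩ := isCompact_Icc.exists_bound_of_continuousOn (s := Icc (-T) T) hq.continuousOn
  obtain ⟨S, hS⟩ := isCompact_Icc.exists_bound_of_continuousOn (s := Icc (-T) T) hh.continuousOn
  simp only [Real.norm_eq_abs] at hM hS
  have h0 : (0 : ℝ) ∈ Icc (-T) T := ⟨by linarith, hT⟩
  have hM0 : 0 ≤ M := (abs_nonneg _).trans (hM 0 h0)
  have hS0 : 0 ≤ S := (abs_nonneg _).trans (hS 0 h0)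
  set R : ℝ := gronwallBound ‖x₀‖ (1 + M) S T with hR
  have hmono : Monotone (gronwallBound ‖x₀‖ (1 + M) S) :=
    gronwallBound_mono (norm_nonneg _) hS0 (by linarith)
  have hR0 : ‖x₀‖ ≤ R := by
    have := hmono hT
    rwa [gronwallBound_x0] at this
  have hRn : 0 ≤ R := (norm_nonneg _).trans hR0
  -- the truncated vector field
  set w : ℝ → ℝ × ℝ → ℝ × ℝ := fun t x => cvf q h t (clampR R x) with hw
  have hwn : ∀ t ∈ Icc (-T) T, ∀ x, ‖w t x‖ ≤ (1 + M) * R + S := by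
    intro t ht x
    refine (norm_cvf_le (hM t ht) (hS t ht) _).trans ?_
    have := norm_clampR_le hRn x
    have : (1 + M) * ‖clampR R x‖ ≤ (1 + M) * R := mul_le_mul_of_nonneg_left this (by linarith)
    linarith
  set L : ℝ := (1 + M) * R + S with hL
  have hL0 : 0 ≤ L := by positivity
  have hpl : IsPicardLindelof w (⟨0, h0⟩ : Icc (-T) T) x₀ (L * T).toNNReal 0 L.toNNReal
      (1 + M).toNNReal := by
    refine ⟨?_, ?_, ?_, ?_⟩
    · intro t ht
      apply LipschitzWith.lipschitzOnWith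
      apply LipschitzWith.of_dist_le_mul
      intro x y
      rw [dist_eq_norm, dist_eq_norm, Real.coe_toNNReal _ (by linarith)]
      refine (cvf_lip (hM t ht) _ _).trans ?_
      exact mul_le_mul_of_nonneg_left (norm_clampR_sub R x y) (by linarith)
    · intro x _
      have : Continuous fun t => w t x := by
        simp only [hw, cvf]
        fun_prop
      exact this.continuousOn
    · intro t ht x _
      rw [Real.coe_toNNReal _ hL0]
      exact hwn t ht x
    · simp only [sub_zero, zero_sub, neg_neg, max_self, NNReal.coe_zero]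
      rw [Real.coe_toNNReal _ hL0, Real.coe_toNNReal _ (mul_nonneg hL0 hT)]
  obtain ⟨α, hα0, hα⟩ := hpl.exists_eq_forall_mem_Icc_hasDerivWithinAt₀
  simp only at hα0
  refine ⟨α, hα0, ?_⟩
  have hb : ∀ t ∈ Icc (-T) T, ‖α t‖ ≤ gronwallBound ‖x₀‖ (1 + M) S |t| := by
    apply gronwall_two_sided hT hα (by rw [hα0])
    intro t ht
    refine (norm_cvf_le (hM t ht) (hS t ht) _).trans ?_
    have := norm_clampR_le_norm hRn (α t)
    have : (1 + M) * ‖clampR R (α t)‖ ≤ (1 + M) * ‖α t‖ :=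
      mul_le_mul_of_nonneg_left this (by linarith)
    linarith
  intro t ht
  have h1 : ‖α t‖ ≤ R := (hb t ht).trans (hmono (abs_le.2 ⟨ht.1, ht.2⟩))
  have h2 := hα t ht
  simp only [hw, clampR_eq h1] at h2
  exact h2

theorem unique_Icc {q h : ℝ → ℝ} (hq : Continuous q) {T : ℝ} (hT : 0 < T) {f g : ℝ → ℝ × ℝ}
    (hf : ∀ t ∈ Icc (-T) T, HasDerivWithinAt f (cvf q h t (f t)) (Icc (-T) T) t)
    (hg : ∀ t ∈ Icc (-T) T, HasDerivWithinAt g (cvf q h t (g t)) (Icc (-T) T) t)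
    (h0 : f 0 = g 0) : EqOn f g (Icc (-T) T) := by
  obtain ⟨M, hM⟩ := isCompact_Icc.exists_bound_of_continuousOn (s := Icc (-T) T) hq.continuousOn
  simp only [Real.norm_eq_abs] at hM
  have h00 : (0 : ℝ) ∈ Icc (-T) T := ⟨by linarith, hT.le⟩
  have hM0 : 0 ≤ M := (abs_nonneg _).trans (hM 0 h00)
  have hd : ∀ t ∈ Icc (-T) T, HasDerivWithinAt (fun t => f t - g t)
      (cvf q h t (f t) - cvf q h t (g t)) (Icc (-T) T) t := fun t ht => (hf t ht).sub (hg t ht)
  have hb := gronwall_two_sided (δ := 0) (K := 1 + M) (ε := 0) hT.le hd (by simp [h0])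
    (fun t ht => by
      rw [add_zero]
      exact cvf_lip (hM t ht) _ _)
  intro t ht
  have := hb t ht
  rw [gronwallBound_ε0_δ0] at this
  exact sub_eq_zero.1 (norm_le_zero_iff.1 this)

theorem exists_global {q h : ℝ → ℝ} (hq : Continuous q) (hh : Continuous h) (x₀ : ℝ × ℝ) :
    ∃ α : ℝ → ℝ × ℝ, α 0 = x₀ ∧ ∀ t, HasDerivAt α (cvf q h t (α t)) t := by
  have H : ∀ n : ℕ, ∃ α : ℝ → ℝ × ℝ, α 0 = x₀ ∧
      ∀ t ∈ Icc (-((n : ℝ) + 1)) ((n : ℝ) + 1),
        HasDerivWithinAt α (cvf q h t (α t)) (Icc (-((n : ℝ) + 1)) ((n : ℝ) + 1)) t :=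
    fun n => exists_local hq hh x₀ (by positivity)
  choose A hA0 hA using H
  have hmono : ∀ m n : ℕ, m ≤ n → EqOn (A n) (A m) (Icc (-((m : ℝ) + 1)) ((m : ℝ) + 1)) := by
    intro m n hmn
    have hmn' : (m : ℝ) ≤ n := by exact_mod_cast hmn
    apply unique_Icc (h := h) hq (by positivity)
    · intro t ht
      have hsub : Icc (-((m : ℝ) + 1)) ((m : ℝ) + 1) ⊆ Icc (-((n : ℝ) + 1)) ((n : ℝ) + 1) :=
        Icc_subset_Icc (by linarith) (by linarith)
      exact (hA n t (hsub ht)).mono hsub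
    · exact hA m
    · rw [hA0, hA0]
  refine ⟨fun t => A ⌈|t|⌉₊ t, by simp [hA0], ?_⟩
  intro t
  set n : ℕ := ⌈|t|⌉₊ with hn
  have htn : |t| ≤ n := Nat.le_ceil _
  -- near `t` the function equals `A (n+1)`
  have hev : (fun s => A ⌈|s|⌉₊ s) =ᶠ[𝓝 t] A (n + 1) := by
    have hop : {s : ℝ | |s| < n + 1} ∈ 𝓝 t := by
      apply (isOpen_lt continuous_abs continuous_const).mem_nhds
      show |t| < n + 1
      linarith
    filter_upwards [hop] with s hs
    have hs' : |s| < n + 1 := hs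
    have h1 : ⌈|s|⌉₊ ≤ n + 1 := by
      rw [Nat.ceil_le]
      push_cast
      exact hs'.le
    have h2 : s ∈ Icc (-((⌈|s|⌉₊ : ℝ) + 1)) ((⌈|s|⌉₊ : ℝ) + 1) := by
      have h3 : |s| ≤ ⌈|s|⌉₊ := Nat.le_ceil _
      rw [mem_Icc, ← abs_le]
      linarith
    exact (hmono _ _ h1 h2).symm
  have h1 : t ∈ Ioo (-(((n + 1 : ℕ) : ℝ) + 1)) (((n + 1 : ℕ) : ℝ) + 1) := by
    push_cast
    rw [mem_Ioo, ← abs_lt]
    linarith
  have h2 : HasDerivAt (A (n + 1)) (cvf q h t (A (n + 1) t)) t :=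
    (hA (n + 1) t (Ioo_subset_Icc_self h1)).hasDerivAt (Icc_mem_nhds h1.1 h1.2)
  have h3 := h2.congr_of_eventuallyEq hev
  have h4 : A n t = A (n + 1) t := hev.self_of_nhds
  rw [← h4] at h3
  exact h3

/-- solutions of the second order equation give solutions of the system -/
theorem pair_hasDerivAt {q h Y : ℝ → ℝ} (hY : Differentiable ℝ Y)
    (hY2 : ∀ t, HasDerivAt (deriv Y) (q t * Y t + h t) t) (t : ℝ) :
    HasDerivAt (fun t => (Y t, deriv Y t)) (cvf q h t (Y t, deriv Y t)) t :=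
  ((hY t).hasDerivAt).prodMk (hY2 t)

/-- two-sided a priori bound -/
theorem exists_ode_bound2 (M R : ℝ) : ∃ C : ℝ, 0 < C ∧ ∀ (q h Y : ℝ → ℝ) (a b δ : ℝ),
    (∀ t ∈ Icc (-R) R, |q t| ≤ M) → (∀ t ∈ Icc (-R) R, |h t| ≤ δ) →
    Y 0 = a → deriv Y 0 = b → Differentiable ℝ Y → (∀ t, HasDerivAt (deriv Y) (q t * Y t + h t) t) →
    ∀ t ∈ Icc (-R) R, |Y t| ≤ C * (|a| + |b| + δ) ∧ |deriv Y t| ≤ C * (|a| + |b| + δ) := by
  refine ⟨Real.exp ((1 + |M|) * |R|), Real.exp_pos _, ?_⟩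
  intro q h Y a b δ hq hh ha hb hY hY2 t ht
  have hR : 0 ≤ R := by linarith [ht.1, ht.2]
  have h0 : (0 : ℝ) ∈ Icc (-R) R := ⟨by linarith, hR⟩
  have hδ0 : 0 ≤ δ := (abs_nonneg _).trans (hh 0 h0)
  have hb' := gronwall_two_sided (f := fun t => (Y t, deriv Y t))
    (f' := fun t => cvf q h t (Y t, deriv Y t)) (δ := |a| + |b|) (K := 1 + |M|) (ε := δ) hR
    (fun t _ => (pair_hasDerivAt hY hY2 t).hasDerivWithinAt)
    (by
      simp only [ha, hb]
      rw [Prod.norm_def]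
      simp only [Real.norm_eq_abs]
      exact max_le (by linarith [abs_nonneg b]) (by linarith [abs_nonneg a]))
    (fun t ht => norm_cvf_le ((hq t ht).trans (le_abs_self M)) (hh t ht) _) t ht
  have hK : (1 + |M|) ≠ 0 := by positivity
  have hKpos : (0 : ℝ) < 1 + |M| := by positivity
  have hmono := gronwallBound_mono (δ := |a| + |b|) (ε := δ) (K := 1 + |M|) (by positivity) hδ0
    hKpos.le (show |t| ≤ |R| by rw [abs_of_nonneg hR, abs_le]; exact ht)
  have hfin : gronwallBound (|a| + |b|) (1 + |M|) δ |R|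
      ≤ Real.exp ((1 + |M|) * |R|) * (|a| + |b| + δ) := by
    rw [gronwallBound_of_K_ne_0 hK]
    simp only
    have h1 : δ / (1 + |M|) ≤ δ := div_le_self hδ0 (by linarith [abs_nonneg M])
    have h2 : 0 ≤ Real.exp ((1 + |M|) * |R|) - 1 := by
      have := Real.add_one_le_exp ((1 + |M|) * |R|)
      have h3 : 0 ≤ (1 + |M|) * |R| := by positivity
      linarith
    have h4 := mul_le_mul_of_nonneg_right h1 h2
    nlinarith
  have hall := hb'.trans (hmono.trans hfin)
  rw [Prod.norm_def] at hall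
  simp only [Real.norm_eq_abs] at hall
  exact ⟨(le_max_left _ _).trans hall, (le_max_right _ _).trans hall⟩

/-! ### O1 -/

/-- inhomogeneous equation with arbitrary initial data -/
theorem ode_exists {q h : ℝ → ℝ} (hq : Continuous q) (hh : Continuous h) (a b : ℝ) :
    ∃ Y : ℝ → ℝ, Y 0 = a ∧ deriv Y 0 = b ∧ Differentiable ℝ Y ∧
      ∀ t, HasDerivAt (deriv Y) (q t * Y t + h t) t := by
  obtain ⟨α, hα0, hα⟩ := exists_global hq hh (a, b)
  have h1 : ∀ t, HasDerivAt (fun s => (α s).1) (α t).2 t := fun t =>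
    (hasFDerivAt_fst (𝕜 := ℝ) (p := α t)).comp_hasDerivAt t (hα t)
  have h2 : ∀ t, HasDerivAt (fun s => (α s).2) (q t * (α t).1 + h t) t := fun t =>
    (hasFDerivAt_snd (𝕜 := ℝ) (p := α t)).comp_hasDerivAt t (hα t)
  have h3 : deriv (fun s => (α s).1) = fun t => (α t).2 := funext fun t => (h1 t).deriv
  refine ⟨fun s => (α s).1, by simp [hα0], ?_, fun t => (h1 t).differentiableAt, ?_⟩
  · rw [h3]
    simp [hα0]
  · intro t
    rw [h3]
    exact h2 t

/-- existence; `q` continuous on `ℝ` -/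
theorem isSol1_exists {q : ℝ → ℝ} (hq : Continuous q) : ∃ Y, IsSol1 q Y := by
  obtain ⟨Y, h0, h1, h2, h3⟩ := ode_exists hq (continuous_const (y := (0 : ℝ))) 0 1
  refine ⟨Y, h0, h1, h2, fun t => ?_⟩
  have := h3 t
  simpa using this

/-- a priori bound (also gives uniqueness): Gronwall -/
theorem exists_ode_bound (M R : ℝ) : ∃ C : ℝ, 0 < C ∧ ∀ (q h Y : ℝ → ℝ) (a b δ : ℝ),
    Continuous q → Continuous h → (∀ t ∈ Icc 0 R, |q t| ≤ M) → (∀ t ∈ Icc 0 R, |h t| ≤ δ) →
    Y 0 = a → deriv Y 0 = b → Differentiable ℝ Y → (∀ t, HasDerivAt (deriv Y) (q t * Y t + h t) t) →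
    ∀ t ∈ Icc 0 R, |Y t| ≤ C * (|a| + |b| + δ) ∧ |deriv Y t| ≤ C * (|a| + |b| + δ) := by
  refine ⟨Real.exp ((1 + |M|) * |R|), Real.exp_pos _, ?_⟩
  intro q h Y a b δ _ _ hq hh ha hb hY hY2 t ht
  have hR : 0 ≤ R := ht.1.trans ht.2
  have h0 : (0 : ℝ) ∈ Icc 0 R := ⟨le_rfl, hR⟩
  have hδ0 : 0 ≤ δ := (abs_nonneg _).trans (hh 0 h0)
  have hb' := norm_le_gronwallBound_of_norm_deriv_right_le (f := fun t => (Y t, deriv Y t))
    (f' := fun t => cvf q h t (Y t, deriv Y t)) (δ := |a| + |b|) (K := 1 + |M|) (ε := δ)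
    (a := 0) (b := R)
    (fun t _ => (pair_hasDerivAt hY hY2 t).continuousAt.continuousWithinAt)
    (fun t _ => (pair_hasDerivAt hY hY2 t).hasDerivWithinAt)
    (by
      simp only [ha, hb]
      rw [Prod.norm_def]
      simp only [Real.norm_eq_abs]
      exact max_le (by linarith [abs_nonneg b]) (by linarith [abs_nonneg a]))
    (fun t ht => norm_cvf_le ((hq t (Ico_subset_Icc_self ht)).trans (le_abs_self M))
      (hh t (Ico_subset_Icc_self ht)) _) t ht
  have hK : (1 + |M|) ≠ 0 := by positivity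
  have hKpos : (0 : ℝ) < 1 + |M| := by positivity
  have hmono := gronwallBound_mono (δ := |a| + |b|) (ε := δ) (K := 1 + |M|) (by positivity) hδ0
    hKpos.le (show t - 0 ≤ |R| by rw [abs_of_nonneg hR, sub_zero]; exact ht.2)
  have hfin : gronwallBound (|a| + |b|) (1 + |M|) δ |R|
      ≤ Real.exp ((1 + |M|) * |R|) * (|a| + |b| + δ) := by
    rw [gronwallBound_of_K_ne_0 hK]
    simp only
    have h1 : δ / (1 + |M|) ≤ δ := div_le_self hδ0 (by linarith [abs_nonneg M])
    have h2 : 0 ≤ Real.exp ((1 + |M|) * |R|) - 1 := by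
      have := Real.add_one_le_exp ((1 + |M|) * |R|)
      have h3 : 0 ≤ (1 + |M|) * |R| := by positivity
      linarith
    have h4 := mul_le_mul_of_nonneg_right h1 h2
    nlinarith
  have hall := hb'.trans (hmono.trans hfin)
  rw [Prod.norm_def] at hall
  simp only [Real.norm_eq_abs] at hall
  exact ⟨(le_max_left _ _).trans hall, (le_max_right _ _).trans hall⟩

theorem qf_contDiff (ν lam : ℝ) : ContDiff ℝ ∞ (qf ν lam) := by
  unfold qf
  fun_prop

theorem qf_cont (ν lam : ℝ) : Continuous (qf ν lam) := (qf_contDiff ν lam).continuous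

theorem yf_spec (ν lam : ℝ) : IsSol1 (qf ν lam) (yf ν lam) := by
  have h := isSol1_exists (qf_cont ν lam)
  rw [yf, dif_pos h]
  exact h.choose_spec

/-- bootstrap -/
theorem contDiff_of_ode {q h Y : ℝ → ℝ} (hq : ContDiff ℝ ∞ q) (hh : ContDiff ℝ ∞ h)
    (hY : Differentiable ℝ Y) (hY2 : ∀ t, HasDerivAt (deriv Y) (q t * Y t + h t) t) :
    ContDiff ℝ ∞ Y := by
  have hd : deriv (deriv Y) = fun t => q t * Y t + h t := funext fun t => (hY2 t).deriv
  have key : ∀ n : ℕ, ContDiff ℝ n Y ∧ ContDiff ℝ n (deriv Y) := by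
    intro n
    induction n with
    | zero =>
      exact ⟨contDiff_zero.2 hY.continuous,
        contDiff_zero.2 (continuous_iff_continuousAt.2 fun t => (hY2 t).continuousAt)⟩
    | succ n ih =>
      have hn : ((n + 1 : ℕ) : WithTop ℕ∞) = (n : WithTop ℕ∞) + 1 := by push_cast; rfl
      rw [hn]
      constructor
      · rw [contDiff_succ_iff_deriv]
        exact ⟨hY, by simp, ih.2⟩
      · rw [contDiff_succ_iff_deriv]
        refine ⟨fun t => (hY2 t).differentiableAt, by simp, ?_⟩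
        rw [hd]
        have hqn : ContDiff ℝ n q := hq.of_le (by exact_mod_cast le_top)
        have hhn : ContDiff ℝ n h := hh.of_le (by exact_mod_cast le_top)
        exact (hqn.mul ih.1).add hhn
  rw [contDiff_infty]
  exact fun n => (key n).1

theorem yf_contDiff (ν lam : ℝ) : ContDiff ℝ ∞ (yf ν lam) := by
  obtain ⟨_, _, h2, h3⟩ := yf_spec ν lam
  exact contDiff_of_ode (h := fun _ => 0) (qf_contDiff ν lam) contDiff_const h2
    (fun t => by simpa using h3 t)

theorem yf_deriv2 (ν lam t : ℝ) : deriv (deriv (yf ν lam)) t = qf ν lam t * yf ν lam t :=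
  ((yf_spec ν lam).2.2.2 t).deriv

theorem abs_qf_le (ν : ℝ) {lam t R M : ℝ} (hM : |lam| ≤ M) (ht : -R ≤ t) :
    |qf ν lam t| ≤ ν ^ 2 + M * Real.exp (2 * R) := by
  unfold qf
  have h1 : Real.exp (-2 * t) ≤ Real.exp (2 * R) := Real.exp_le_exp.2 (by linarith)
  have h2 : |lam * Real.exp (-2 * t)| ≤ M * Real.exp (2 * R) := by
    rw [abs_mul, abs_of_pos (Real.exp_pos _)]
    exact mul_le_mul hM h1 (Real.exp_pos _).le ((abs_nonneg _).trans hM)
  calc |ν ^ 2 - lam * Real.exp (-2 * t)| ≤ |ν ^ 2| + |lam * Real.exp (-2 * t)| := abs_sub _ _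
    _ ≤ _ := by
      rw [abs_of_nonneg (sq_nonneg ν)]
      linarith

/-- locally uniform Lipschitz continuity in `lam` -/
theorem yf_lipschitz (ν lam₀ R : ℝ) : ∃ C : ℝ, 0 ≤ C ∧ ∀ lam : ℝ, |lam - lam₀| ≤ 1 →
    ∀ t ∈ Icc (-R) R, |yf ν lam t - yf ν lam₀ t| ≤ C * |lam - lam₀| ∧
      |deriv (yf ν lam) t - deriv (yf ν lam₀) t| ≤ C * |lam - lam₀| := by
  obtain ⟨C, hC, hb⟩ := exists_ode_bound2 (ν ^ 2 + (|lam₀| + 1) * Real.exp (2 * R)) R
  obtain ⟨S, hS⟩ := isCompact_Icc.exists_bound_of_continuousOn (s := Icc (-R) R)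
    (yf_contDiff ν lam₀).continuous.continuousOn
  simp only [Real.norm_eq_abs] at hS
  refine ⟨C * (Real.exp (2 * R) * |S|), by positivity, ?_⟩
  intro lam hlam t ht
  have hR : 0 ≤ R := by linarith [ht.1, ht.2]
  obtain ⟨a0, a1, a2, a3⟩ := yf_spec ν lam
  obtain ⟨b0, b1, b2, b3⟩ := yf_spec ν lam₀
  have hd : deriv (fun t => yf ν lam t - yf ν lam₀ t)
      = fun t => deriv (yf ν lam) t - deriv (yf ν lam₀) t := by
    funext t
    exact deriv_fun_sub (a2 t) (b2 t)
  have hlam' : |lam| ≤ |lam₀| + 1 := by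
    have := abs_add_le (lam - lam₀) lam₀
    rw [sub_add_cancel] at this
    linarith
  have := hb (qf ν lam) (fun t => -(lam - lam₀) * Real.exp (-2 * t) * yf ν lam₀ t)
    (fun t => yf ν lam t - yf ν lam₀ t) 0 0 (|lam - lam₀| * (Real.exp (2 * R) * |S|))
    (fun t ht => abs_qf_le ν hlam' ht.1)
    (fun t ht => by
      rw [abs_mul, abs_mul, abs_neg, abs_of_pos (Real.exp_pos _), mul_assoc]
      refine mul_le_mul_of_nonneg_left ?_ (abs_nonneg _)
      exact mul_le_mul (Real.exp_le_exp.2 (by linarith [ht.1])) ((hS t ht).trans (le_abs_self S))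
        (abs_nonneg _) (Real.exp_pos _).le)
    (by rw [a0, b0, sub_zero]) (by rw [hd]; simp only [a1, b1, sub_self])
    (a2.sub b2)
    (fun t => by
      rw [hd]
      have := (a3 t).sub (b3 t)
      refine this.congr_deriv ?_
      simp only [qf]
      ring) t ht
  rw [hd] at this
  simp only [abs_zero, zero_add] at this
  constructor
  · calc _ ≤ _ := this.1
      _ = _ := by ring
  · calc _ ≤ _ := this.2
      _ = _ := by ring

theorem deriv_yf_continuous (ν lam : ℝ) : Continuous (deriv (yf ν lam)) :=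
  continuous_iff_continuousAt.2 fun t => ((yf_spec ν lam).2.2.2 t).continuousAt

/-- joint continuity in `(lam, t)` of `y` and `y'` -/
theorem yf_continuous (ν : ℝ) : Continuous (fun z : ℝ × ℝ => yf ν z.1 z.2) ∧
    Continuous (fun z : ℝ × ℝ => deriv (yf ν z.1) z.2) := by
  have main : ∀ F : ℝ → ℝ → ℝ, (∀ lam, Continuous (F lam)) →
      (∀ lam₀ R : ℝ, ∃ C : ℝ, 0 ≤ C ∧ ∀ lam : ℝ, |lam - lam₀| ≤ 1 →
        ∀ t ∈ Icc (-R) R, |F lam t - F lam₀ t| ≤ C * |lam - lam₀|) →
      Continuous (fun z : ℝ × ℝ => F z.1 z.2) := by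
    intro F hF1 hF2
    rw [continuous_iff_continuousAt]
    rintro ⟨lam₀, t₀⟩
    obtain ⟨C, hC, hb⟩ := hF2 lam₀ (|t₀| + 1)
    rw [ContinuousAt, tendsto_iff_norm_sub_tendsto_zero]
    have h1 : Tendsto (fun z : ℝ × ℝ => C * |z.1 - lam₀| + |F lam₀ z.2 - F lam₀ t₀|)
        (𝓝 (lam₀, t₀)) (𝓝 0) := by
      have hc : Continuous (fun z : ℝ × ℝ => C * |z.1 - lam₀| + |F lam₀ z.2 - F lam₀ t₀|) := by
        have := (hF1 lam₀).comp (continuous_snd (X := ℝ) (Y := ℝ))
        have h2 : Continuous fun z : ℝ × ℝ => F lam₀ z.2 := this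
        fun_prop
      have := hc.tendsto (lam₀, t₀)
      simpa using this
    apply squeeze_zero' (Eventually.of_forall fun z => norm_nonneg _) _ h1
    have hm : {z : ℝ × ℝ | |z.1 - lam₀| < 1 ∧ |z.2 - t₀| < 1} ∈ 𝓝 (lam₀, t₀) := by
      have c1 : Continuous fun z : ℝ × ℝ => |z.1 - lam₀| := by fun_prop
      have c2 : Continuous fun z : ℝ × ℝ => |z.2 - t₀| := by fun_prop
      apply IsOpen.mem_nhds
      · exact (isOpen_lt c1 continuous_const).inter (isOpen_lt c2 continuous_const)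
      · simp
    filter_upwards [hm] with z hz
    have hz2 : z.2 ∈ Icc (-(|t₀| + 1)) (|t₀| + 1) := by
      rw [mem_Icc, ← abs_le]
      have := abs_add_le (z.2 - t₀) t₀
      rw [sub_add_cancel] at this
      linarith [hz.2]
    have h3 := hb z.1 hz.1.le z.2 hz2
    rw [Real.norm_eq_abs]
    have h4 := abs_add_le (F z.1 z.2 - F lam₀ z.2) (F lam₀ z.2 - F lam₀ t₀)
    rw [sub_add_sub_cancel] at h4
    linarith
  constructor
  · apply main (fun lam => yf ν lam) (fun lam => (yf_contDiff ν lam).continuous)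
    intro lam₀ R
    obtain ⟨C, hC, h⟩ := yf_lipschitz ν lam₀ R
    exact ⟨C, hC, fun lam hl t ht => (h lam hl t ht).1⟩
  · apply main (fun lam => deriv (yf ν lam)) (fun lam => deriv_yf_continuous ν lam)
    intro lam₀ R
    obtain ⟨C, hC, h⟩ := yf_lipschitz ν lam₀ R
    exact ⟨C, hC, fun lam hl t ht => (h lam hl t ht).2⟩

/-- Wronskian identity -/
theorem yf_wronskian (ν lam lam' L : ℝ) :
    deriv (yf ν lam) L * yf ν lam' L - yf ν lam L * deriv (yf ν lam') L
      = (lam' - lam) * ∫ t in (0 : ℝ)..L, Real.exp (-2 * t) * (yf ν lam t * yf ν lam' t) := by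
  obtain ⟨a0, a1, a2, a3⟩ := yf_spec ν lam
  obtain ⟨b0, b1, b2, b3⟩ := yf_spec ν lam'
  have hd : ∀ t ∈ uIcc 0 L, HasDerivAt
      (fun t => deriv (yf ν lam) t * yf ν lam' t - yf ν lam t * deriv (yf ν lam') t)
      ((lam' - lam) * (Real.exp (-2 * t) * (yf ν lam t * yf ν lam' t))) t := by
    intro t _
    have h1 := (a3 t).mul (b2 t).hasDerivAt
    have h2 := (a2 t).hasDerivAt.mul (b3 t)
    have h3 := h1.sub h2
    refine h3.congr_deriv ?_
    simp only [qf]
    ring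
  have hc : Continuous fun t => (lam' - lam) * (Real.exp (-2 * t) * (yf ν lam t * yf ν lam' t)) := by
    have c1 := (yf_contDiff ν lam).continuous
    have c2 := (yf_contDiff ν lam').continuous
    fun_prop
  have := intervalIntegral.integral_eq_sub_of_hasDerivAt hd (hc.intervalIntegrable 0 L)
  rw [intervalIntegral.integral_const_mul] at this
  rw [this, a0, b0]
  ring

end Pool.Agent.helper13.BN
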